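import Pool.Agent.H56.G3.TR

/-!
# RC. The number of the separated frequencies which are seen by a function (MP_c59857_nt)
-/

set_option autoImplicit false

namespace Pool.Agent.H17.G3

open Finset Pool.Agent.H6.N4D Pool.Agent.H56.G3

theorem rc_conj (x : ℝ) : (starRingEnd ℂ) (ee x) = ee (-x) := by
  unfold ee
  rw [← Complex.exp_conj]
  congr 1
  simp only [map_mul, Complex.conj_ofReal, Complex.conj_I]
  push_cast
  ring

theorem rc_cs (W : Finset ℕ) (F G : ℕ → ℂ) :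
    ‖∑ m ∈ W, F m * G m‖ ^ 2 ≤ (∑ m ∈ W, ‖F m‖ ^ 2) * ∑ m ∈ W, ‖G m‖ ^ 2 := by
  calc ‖∑ m ∈ W, F m * G m‖ ^ 2 ≤ (∑ m ∈ W, ‖F m‖ * ‖G m‖) ^ 2 := by
        apply pow_le_pow_left₀ (norm_nonneg _)
        exact (norm_sum_le _ _).trans (le_of_eq (by simp only [norm_mul]))
    _ ≤ _ := Finset.sum_mul_sq_le_sq_mul_sq W _ _

theorem rc_psi (W : Finset ℕ) (r : ℕ) (w : ℕ → ℂ) (b : ℕ → ℝ) (hw : ∀ s, ‖w s‖ ≤ 1) {N K : ℝ}
    (hK : 0 ≤ K) (hN : (W.card : ℝ) ≤ N)
    (h : ∀ s < r, ∀ s' < r, s ≠ s' → ‖∑ m ∈ W, ee ((b s' - b s) * m)‖ ≤ K) :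
    ∑ m ∈ W, ‖∑ s ∈ range r, w s * ee (-(b s * m))‖ ^ 2 ≤ r * N + r * (r * K) := by
  have h1 : ((∑ m ∈ W, ‖∑ s ∈ range r, w s * ee (-(b s * m))‖ ^ 2 : ℝ) : ℂ) =
      ∑ s ∈ range r, ∑ s' ∈ range r, w s * (starRingEnd ℂ) (w s') *
        ∑ m ∈ W, ee ((b s' - b s) * m) := by
    push_cast
    have h2 : ∀ m ∈ W, ((‖∑ s ∈ range r, w s * ee (-(b s * m))‖ : ℝ) : ℂ) ^ 2 =
        ∑ s ∈ range r, ∑ s' ∈ range r, w s * (starRingEnd ℂ) (w s') *
          ee ((b s' - b s) * m) := by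
      intro m _
      rw [← Complex.mul_conj', map_sum, Finset.sum_mul_sum]
      refine Finset.sum_congr rfl fun s _ => Finset.sum_congr rfl fun s' _ => ?_
      rw [map_mul, rc_conj, neg_neg]
      have : ee ((b s' - b s) * m) = ee (-(b s * m)) * ee (b s' * m) := by
        rw [← ee_add]
        congr 1
        ring
      rw [this]
      ring
    rw [Finset.sum_congr rfl h2, Finset.sum_comm]
    refine Finset.sum_congr rfl fun s _ => ?_
    rw [Finset.sum_comm]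
    refine Finset.sum_congr rfl fun s' _ => ?_
    rw [Finset.mul_sum]
  have h3 : 0 ≤ ∑ m ∈ W, ‖∑ s ∈ range r, w s * ee (-(b s * m))‖ ^ 2 :=
    Finset.sum_nonneg fun m _ => by positivity
  have h4 : ∑ m ∈ W, ‖∑ s ∈ range r, w s * ee (-(b s * m))‖ ^ 2 =
      ‖((∑ m ∈ W, ‖∑ s ∈ range r, w s * ee (-(b s * m))‖ ^ 2 : ℝ) : ℂ)‖ := by
    rw [Complex.norm_real, Real.norm_of_nonneg h3]
  rw [h4, h1]
  have h5 : ∀ s ∈ range r, ‖∑ s' ∈ range r, w s * (starRingEnd ℂ) (w s') *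
      ∑ m ∈ W, ee ((b s' - b s) * m)‖ ≤ N + r * K := by
    intro s hs
    have h6 : ∀ s' ∈ range r, ‖w s * (starRingEnd ℂ) (w s') *
        ∑ m ∈ W, ee ((b s' - b s) * m)‖ ≤ (if s = s' then N else 0) + K := by
      intro s' hs'
      rw [norm_mul, norm_mul, RCLike.norm_conj]
      have h7 : ‖w s‖ * ‖w s'‖ ≤ 1 := mul_le_one₀ (hw s) (norm_nonneg _) (hw s')
      refine (mul_le_of_le_one_left (norm_nonneg _) h7).trans ?_
      by_cases he : s = s'
      · rw [if_pos he]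
        refine (norm_sum_le _ _).trans ?_
        simp only [norm_ee, Finset.sum_const, nsmul_eq_mul, mul_one]
        linarith
      · rw [if_neg he, zero_add]
        exact h s (mem_range.1 hs) s' (mem_range.1 hs') he
    refine (norm_sum_le_of_le _ h6).trans ?_
    rw [Finset.sum_add_distrib, Finset.sum_ite_eq, if_pos hs, Finset.sum_const, card_range,
      nsmul_eq_mul]
  refine (norm_sum_le_of_le _ h5).trans ?_
  rw [Finset.sum_const, card_range, nsmul_eq_mul]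
  exact le_of_eq (by ring)

/-- RC. The number of the separated frequencies which are seen by a function. -/
theorem pf_RC (hRG : T_RG) : T_RC := by
  intro th F N n r b hth hth1 hN hF hsep hbig
  have hN0 : (0 : ℝ) < N := by exact_mod_cast hN
  obtain ⟨W, hW⟩ : ∃ W : Finset ℕ, W = Ioc n (n + N) := ⟨_, rfl⟩
  have hWc : (W.card : ℝ) = N := by
    rw [hW, Nat.card_Ioc]
    simp
  rw [← hW, div_le_iff₀ hN0] at hF
  obtain ⟨Z, hZ⟩ : ∃ Z : ℕ → ℂ, Z = fun s => ∑ m ∈ W, F m * ee (-(b s * m)) := ⟨_, rfl⟩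
  have hZbig : ∀ s < r, th / 2 * N ≤ ‖Z s‖ := by
    intro s hs
    have h1 := hbig s hs
    have h2 : cf N n F (b s) = Z s / N := by
      rw [hZ, hW]
      rfl
    rw [h2, norm_div, Complex.norm_natCast, le_div_iff₀ hN0] at h1
    exact h1
  obtain ⟨w, hw⟩ : ∃ w : ℕ → ℂ, w = fun s => (starRingEnd ℂ) (Z s) / ‖Z s‖ := ⟨_, rfl⟩
  have hw1 : ∀ s, ‖w s‖ ≤ 1 := by
    intro s
    rw [hw]
    simp only [norm_div, RCLike.norm_conj, Complex.norm_real, norm_norm]
    exact div_self_le_one _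
  have hwZ : ∀ s, w s * Z s = (‖Z s‖ : ℂ) := by
    intro s
    rw [hw]
    simp only
    by_cases h0 : Z s = 0
    · rw [h0]; simp
    · have h1 : (‖Z s‖ : ℂ) ≠ 0 := by
        rw [Complex.ofReal_ne_zero]
        exact norm_ne_zero_iff.2 h0
      rw [div_mul_eq_mul_div, Complex.conj_mul', pow_two, mul_div_assoc, div_self h1, mul_one]
  -- the sum
  have hsum : ∑ m ∈ W, F m * ∑ s ∈ range r, w s * ee (-(b s * m)) =
      ((∑ s ∈ range r, ‖Z s‖ : ℝ) : ℂ) := by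
    push_cast
    rw [← Finset.sum_congr rfl fun s _ => hwZ s]
    simp only [hZ, Finset.mul_sum]
    rw [Finset.sum_comm]
    refine Finset.sum_congr rfl fun s _ => Finset.sum_congr rfl fun m _ => ?_
    ring
  have hlow : r * (th / 2 * N) ≤ ‖∑ m ∈ W, F m * ∑ s ∈ range r, w s * ee (-(b s * m))‖ := by
    rw [hsum, Complex.norm_real, Real.norm_of_nonneg (Finset.sum_nonneg fun s _ => norm_nonneg _)]
    have h1 : ∑ s ∈ range r, th / 2 * N ≤ ∑ s ∈ range r, ‖Z s‖ :=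
      Finset.sum_le_sum fun s hs => hZbig s (mem_range.1 hs)
    rwa [Finset.sum_const, card_range, nsmul_eq_mul] at h1
  have hcs := rc_cs W F fun m => ∑ s ∈ range r, w s * ee (-(b s * m))
  have hpsi := rc_psi W r w b hw1 (N := N) (K := th ^ 2 * N / 32) (by positivity) hWc.le (by
    intro s hs s' hs' hne
    have h1 := hsep s' hs' s hs hne.symm
    have h2 : 0 < 16 / th ^ 2 / (N : ℝ) := by positivity
    have h3 : 0 < nd (b s' - b s) := h2.trans_le h1
    rw [hW]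
    refine (hRG (b s' - b s) N n h3).trans ?_
    rw [div_le_iff₀ (by positivity)]
    calc (1 : ℝ) = th ^ 2 * N / 32 * (2 * (16 / th ^ 2 / (N : ℝ))) := by field_simp; norm_num
      _ ≤ th ^ 2 * N / 32 * (2 * nd (b s' - b s)) := by gcongr)
  have hr0 : (0 : ℝ) ≤ r := Nat.cast_nonneg r
  have h1 : (r * (th / 2 * N)) ^ 2 ≤ (3 * N) * (r * N + r * (r * (th ^ 2 * N / 32))) := by
    calc (r * (th / 2 * N)) ^ 2 ≤
          ‖∑ m ∈ W, F m * ∑ s ∈ range r, w s * ee (-(b s * m))‖ ^ 2 :=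
          pow_le_pow_left₀ (by positivity) hlow 2
      _ ≤ _ := hcs
      _ ≤ _ := mul_le_mul hF hpsi (Finset.sum_nonneg fun m _ => by positivity) (by positivity)
  have h2 : (N : ℝ) ^ 2 * (r * (r * th ^ 2 * 5)) ≤ (N : ℝ) ^ 2 * (r * 96) := by nlinarith [h1]
  have h3 : (r : ℝ) * (r * th ^ 2 * 5) ≤ r * 96 := le_of_mul_le_mul_left h2 (by positivity)
  rw [le_div_iff₀ (by positivity)]
  rcases hr0.eq_or_lt with h0 | h0
  · rw [← h0]; norm_num
  · have := le_of_mul_le_mul_left h3 h0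
    linarith

end Pool.Agent.H17.G3
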